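import Pool.Agent.Q103.SF.Stm1

/-!
# Project SF, W3: curves of genus at most one are Zariski closures of entire curves
-/

set_option autoImplicit false

open Finset

namespace Pool.Agent.Q24.SF

namespace W3h

open MvPolynomial

variable {σ : Type}

/-- a form at a multiple of a point -/
lemma form_mul {K : Type} [Field K] [Algebra ℂ K] {n : ℕ} {G : MvPolynomial (Fin n) ℂ} {d : ℕ}
    (hG : G.IsHomogeneous d) (c : K) (y : Fin n → K) :
    aeval (fun i => c * y i) G = c ^ d * aeval y G := by
  rw [aeval_def, aeval_def, eval₂_eq, eval₂_eq, mul_sum]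
  refine sum_congr rfl fun α hα => ?_
  have h1 : (∑ i ∈ α.support, α i) = d := by
    have := hG (mem_support_iff.1 hα)
    rw [← this, Finsupp.weight_apply]
    simp [Finsupp.sum]
  have h2 : ∏ i ∈ α.support, (c * y i) ^ α i = c ^ d * ∏ i ∈ α.support, y i ^ α i := by
    simp only [mul_pow]
    rw [prod_mul_distrib, prod_pow_eq_pow_sum, h1]
  rw [h2]; ring

lemma ae {τ : Type} (f : τ → ℂ) (P : MvPolynomial τ ℂ) : aeval f P = eval f P := rfl

/-- the homogenization of degree `m + 1` of a polynomial, at functions -/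
noncomputable def hmg (m : ℕ) (p : MvPolynomial σ ℂ) (X : σ → ℂ → ℂ) (Z : ℂ → ℂ) (t : ℂ) : ℂ :=
  ∑ α ∈ p.support, coeff α p * (∏ i ∈ α.support, X i t ^ α i) *
    Z t ^ (m + 1 - ∑ i ∈ α.support, α i)

lemma deg_le {m : ℕ} {p : MvPolynomial σ ℂ} (hm : p.totalDegree ≤ m) {α : σ →₀ ℕ}
    (hα : α ∈ p.support) : ∑ i ∈ α.support, α i ≤ m := by
  refine le_trans ?_ hm
  exact le_totalDegree hα

lemma hmg_diff (m : ℕ) (p : MvPolynomial σ ℂ) {X : σ → ℂ → ℂ} {Z : ℂ → ℂ}
    (hX : ∀ i, Differentiable ℂ (X i)) (hZ : Differentiable ℂ Z) :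
    Differentiable ℂ (hmg m p X Z) := by
  unfold hmg
  refine Differentiable.fun_sum fun α _ => ?_
  refine ((differentiable_const _).mul ?_).mul (hZ.pow _)
  exact Differentiable.fun_finsetProd fun i _ => (hX i).pow _

lemma hmg_eq {m : ℕ} {p : MvPolynomial σ ℂ} (hm : p.totalDegree ≤ m) (X : σ → ℂ → ℂ)
    (Z : ℂ → ℂ) {t : ℂ} (hZ : Z t ≠ 0) :
    hmg m p X Z t = Z t ^ (m + 1) * eval (fun i => X i t / Z t) p := by
  unfold hmg
  rw [eval_eq, mul_sum]
  refine sum_congr rfl fun α hα => ?_
  have h1 := deg_le hm hα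
  obtain ⟨e, he⟩ : ∃ e, m + 1 = (∑ i ∈ α.support, α i) + e := ⟨_, (Nat.add_sub_of_le (by omega)).symm⟩
  have h2 : ∏ i ∈ α.support, X i t ^ α i =
      Z t ^ (∑ i ∈ α.support, α i) * ∏ i ∈ α.support, (X i t / Z t) ^ α i := by
    rw [← prod_pow_eq_pow_sum, ← prod_mul_distrib]
    refine prod_congr rfl fun i _ => ?_
    rw [← mul_pow, mul_div_cancel₀ _ hZ]
  rw [h2, he, Nat.add_sub_cancel_left, pow_add]
  ring

lemma hmg_zero {m : ℕ} {p : MvPolynomial σ ℂ} (hm : p.totalDegree ≤ m) (X : σ → ℂ → ℂ)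
    (Z : ℂ → ℂ) {t : ℂ} (hZ : Z t = 0) : hmg m p X Z t = 0 := by
  unfold hmg
  refine sum_eq_zero fun α hα => ?_
  have h1 := deg_le hm hα
  rw [hZ, zero_pow (by omega), mul_zero]

/-- common denominators -/
lemma com_den {L : Type} [Field L] [Algebra ℂ L] {x : σ → L}
    (hx : IntermediateField.adjoin ℂ (Set.range x) = ⊤) {n : ℕ} (v : Fin n → L) :
    ∃ (p : Fin n → MvPolynomial σ ℂ) (q : MvPolynomial σ ℂ), aeval x q ≠ 0 ∧
      ∀ i, aeval x (p i) = aeval x q * v i := by
  classical
  have h1 : ∀ i, ∃ r s : MvPolynomial σ ℂ, aeval x s ≠ 0 ∧ aeval x r = aeval x s * v i := by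
    intro i
    have h2 : v i ∈ IntermediateField.adjoin ℂ (Set.range x) := by
      rw [hx]; exact IntermediateField.mem_top
    obtain ⟨r, s, h3⟩ := (IntermediateField.mem_adjoin_range_iff ℂ x (v i)).1 h2
    by_cases hs : aeval x s = 0
    · refine ⟨0, 1, by simp, ?_⟩
      rw [h3, hs]; simp
    · exact ⟨r, s, hs, by rw [h3, mul_div_cancel₀ _ hs]⟩
  choose r s hs hr using h1
  refine ⟨fun i => r i * ∏ j ∈ univ.erase i, s j, ∏ j, s j, ?_, fun i => ?_⟩
  · rw [map_prod]
    exact prod_ne_zero_iff.2 fun j _ => hs j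
  · rw [map_mul, hr, map_prod, map_prod, ← mul_prod_erase univ (fun j => aeval x (s j)) (mem_univ i)]
    ring

/-- **The parametrization of the generic point.** -/
theorem param {L : Type} [Field L] [Algebra ℂ L] {x : σ → L}
    (hx : IntermediateField.adjoin ℂ (Set.range x) = ⊤) {X : σ → ℂ → ℂ} {Z : ℂ → ℂ}
    (hX : ∀ i, Differentiable ℂ (X i)) (hZ : Differentiable ℂ Z)
    (H : ∀ P : MvPolynomial σ ℂ, (∀ t, Z t ≠ 0 → eval (fun i => X i t / Z t) P = 0) ↔
      aeval x P = 0) {n : ℕ} (v : Fin n → L) :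
    ∃ f : Fin n → ℂ → ℂ, (∀ i, Differentiable ℂ (f i)) ∧
      ∀ (d : ℕ) (G : MvPolynomial (Fin n) ℂ), G.IsHomogeneous d →
        ((∀ t, eval (fun i => f i t) G = 0) ↔ aeval v G = 0) := by
  classical
  obtain ⟨p, q, hq, hp⟩ := com_den hx v
  obtain ⟨m, hm⟩ : ∃ m, ∀ i, (p i).totalDegree ≤ m :=
    ⟨∑ i, (p i).totalDegree, fun i => single_le_sum (f := fun i => (p i).totalDegree)
      (fun _ _ => Nat.zero_le _) (mem_univ i)⟩
  refine ⟨fun i => hmg m (p i) X Z, fun i => hmg_diff m (p i) hX hZ, fun d G hG => ?_⟩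
  rcases Nat.eq_zero_or_pos d with rfl | hd
  · -- constants
    have h1 : G = C (coeff 0 G) := by
      have := (totalDegree_eq_zero_iff_eq_C (p := G)).1 (by
        have := hG.totalDegree_le; omega)
      exact this
    rw [h1]
    simp only [eval_C, algHom_C]
    constructor
    · intro h
      rw [h 0, map_zero]
    · intro h _
      exact (map_eq_zero _).1 h
  have e1 : ∀ t, Z t ≠ 0 → eval (fun i => hmg m (p i) X Z t) G =
      (Z t ^ (m + 1)) ^ d * eval (fun i => X i t / Z t) (bind₁ p G) := by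
    intro t ht
    have h1 : (fun i => hmg m (p i) X Z t) =
        fun i => Z t ^ (m + 1) * eval (fun i => X i t / Z t) (p i) := by
      funext i; exact hmg_eq (hm i) X Z ht
    rw [h1]
    have h2 := form_mul (K := ℂ) hG (Z t ^ (m + 1)) (fun i => eval (fun i => X i t / Z t) (p i))
    rw [ae, ae] at h2
    rw [h2]
    congr 1
    exact (aeval_bind₁ (fun i => X i t / Z t) p G).symm
  have e2 : aeval x (bind₁ p G) = aeval x q ^ d * aeval v G := by
    rw [aeval_bind₁, ← form_mul hG]
    congr 1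
    congr 1
    funext i
    exact hp i
  have e3 : (∀ t, eval (fun i => hmg m (p i) X Z t) G = 0) ↔
      ∀ t, Z t ≠ 0 → eval (fun i => X i t / Z t) (bind₁ p G) = 0 := by
    constructor
    · intro h t ht
      have := h t
      rw [e1 t ht] at this
      exact (mul_eq_zero.1 this).resolve_left (pow_ne_zero _ (pow_ne_zero _ ht))
    · intro h t
      by_cases ht : Z t = 0
      · have h1 : (fun i => hmg m (p i) X Z t) = fun i => (0 : ℂ) * (0 : ℂ) := by
          funext i; rw [hmg_zero (hm i) X Z ht, zero_mul]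
        have h2 := form_mul (K := ℂ) hG 0 (fun _ => (0 : ℂ))
        rw [ae, zero_pow hd.ne', zero_mul (aeval _ G)] at h2
        rw [h1]; exact h2
      · rw [e1 t ht, h t ht, mul_zero]
  rw [e3, H, e2, mul_eq_zero]
  constructor
  · exact fun h => h.resolve_left (pow_ne_zero _ hq)
  · exact Or.inr

/-! ### rational curves -/

lemma alg_one {L : Type} [Field L] [Algebra ℂ L] (ht : Algebra.trdeg ℂ L = 1) {S : Set L}
    (hS : IntermediateField.adjoin ℂ S = ⊤) (h : ∀ s ∈ S, IsAlgebraic ℂ s) : False := by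
  have h1 : Algebra.IsAlgebraic ℂ (IntermediateField.adjoin ℂ S) :=
    IntermediateField.isAlgebraic_adjoin fun s hs => (h s hs).isIntegral
  rw [hS] at h1
  have h2 : Algebra.IsAlgebraic ℂ L := by
    constructor
    intro z
    have := h1.isAlgebraic (⟨z, IntermediateField.mem_top⟩ : (⊤ : IntermediateField ℂ L))
    exact (isAlgebraic_algHom_iff (IntermediateField.val ⊤) Subtype.val_injective).2 this
  have h3 : Algebra.trdeg ℂ L = 0 := trdeg_eq_zero
  rw [ht] at h3
  exact one_ne_zero h3

theorem rat_case {L : Type} [Field L] [Algebra ℂ L] (ht : Algebra.trdeg ℂ L = 1) {τ : L}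
    (hτ : IntermediateField.adjoin ℂ {τ} = ⊤) {n : ℕ} (v : Fin n → L) :
    ∃ f : Fin n → ℂ → ℂ, (∀ i, Differentiable ℂ (f i)) ∧
      ∀ (d : ℕ) (G : MvPolynomial (Fin n) ℂ), G.IsHomogeneous d →
        ((∀ t, eval (fun i => f i t) G = 0) ↔ aeval v G = 0) := by
  have htr : Transcendental ℂ τ := by
    intro h
    exact alg_one ht hτ (by rintro s rfl; exact h)
  refine param (σ := Unit) (x := fun _ => τ) (by rw [Set.range_const]; exact hτ)
    (X := fun _ t => t) (Z := fun _ => 1) (fun _ => differentiable_id) (differentiable_const _)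
    (fun P => ?_) v
  have h1 : AlgebraicIndependent ℂ (fun _ : Unit => τ) :=
    algebraicIndependent_unique_type_iff.2 htr
  constructor
  · intro h
    have h2 : P = 0 := by
      refine MvPolynomial.funext fun y => ?_
      have := h (y ()) one_ne_zero
      simp only [div_one] at this
      rw [map_zero, ← this]
    rw [h2, map_zero]
  · intro h t _
    have h2 := h1.eq_zero_of_aeval_eq_zero P h
    rw [h2, map_zero]

/-! ### elliptic curves -/

open Polynomial in
/-- reduction modulo the equation of the curve -/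
lemma red (a b : ℂ) (P : MvPolynomial (Fin 2) ℂ) : ∃ A B : ℂ[X], ∀ (R : Type) [CommRing R]
    [Algebra ℂ R] (x y : R), y ^ 2 = x ^ 3 + algebraMap ℂ R a * x + algebraMap ℂ R b →
      MvPolynomial.aeval ![x, y] P = Polynomial.aeval x A + y * Polynomial.aeval x B := by
  induction P using MvPolynomial.induction_on with
  | C c => exact ⟨Polynomial.C c, 0, fun R _ _ x y h => by simp⟩
  | add P Q hP hQ =>
    obtain ⟨A, B, h1⟩ := hP
    obtain ⟨A', B', h2⟩ := hQ
    refine ⟨A + A', B + B', fun R _ _ x y h => ?_⟩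
    rw [map_add, h1 R x y h, h2 R x y h, map_add, map_add]; ring
  | mul_X P i hP =>
    obtain ⟨A, B, h1⟩ := hP
    fin_cases i
    · refine ⟨A * Polynomial.X, B * Polynomial.X, fun R _ _ x y h => ?_⟩
      rw [map_mul, h1 R x y h]
      simp
      ring
    · refine ⟨B * (Polynomial.X ^ 3 + Polynomial.C a * Polynomial.X + Polynomial.C b), A, fun R _ _ x y h => ?_⟩
      rw [map_mul, h1 R x y h]
      simp only [Fin.mk_one, MvPolynomial.aeval_X, Matrix.cons_val_one, Matrix.cons_val_fin_one,
        map_mul, map_add, map_pow, Polynomial.aeval_X, Polynomial.aeval_C]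
      linear_combination (Polynomial.aeval x B) * h

open Polynomial in
lemma norm_zero {a b : ℂ} {A B : ℂ[X]}
    (h : A ^ 2 = B ^ 2 * (Polynomial.X ^ 3 + Polynomial.C a * Polynomial.X + Polynomial.C b)) : A = 0 ∧ B = 0 := by
  have hd : (Polynomial.X ^ 3 + Polynomial.C a * Polynomial.X + Polynomial.C b : ℂ[X]).natDegree = 3 := by
    compute_degree!
  have hq : (Polynomial.X ^ 3 + Polynomial.C a * Polynomial.X + Polynomial.C b : ℂ[X]) ≠ 0 := by
    intro h0; rw [h0] at hd; simp at hd
  by_cases hB : B = 0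
  · rw [hB] at h
    refine ⟨?_, hB⟩
    have : A ^ 2 = 0 := by rw [h]; ring
    exact pow_eq_zero_iff (two_ne_zero) |>.1 this
  · exfalso
    have h1 := congrArg Polynomial.natDegree h
    rw [natDegree_pow, natDegree_mul (pow_ne_zero _ hB) hq, natDegree_pow, hd] at h1
    omega

open Polynomial in
theorem ell_case {L : Type} [Field L] [Algebra ℂ L] (ht : Algebra.trdeg ℂ L = 1) {a b : ℂ}
    {x y : L} (hxy : y ^ 2 = x ^ 3 + algebraMap ℂ L a * x + algebraMap ℂ L b)
    (hg : IntermediateField.adjoin ℂ {x, y} = ⊤) {X Y Z : ℂ → ℂ} (hX : Differentiable ℂ X)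
    (hY : Differentiable ℂ Y) (hZ : Differentiable ℂ Z)
    (hE : ∀ t, Y t ^ 2 * Z t = X t ^ 3 + a * X t * Z t ^ 2 + b * Z t ^ 3)
    (hc : ∃ s t, X s * Z t ≠ X t * Z s) {n : ℕ} (v : Fin n → L) :
    ∃ f : Fin n → ℂ → ℂ, (∀ i, Differentiable ℂ (f i)) ∧
      ∀ (d : ℕ) (G : MvPolynomial (Fin n) ℂ), G.IsHomogeneous d →
        ((∀ t, MvPolynomial.eval (fun i => f i t) G = 0) ↔ MvPolynomial.aeval v G = 0) := by
  obtain ⟨s0, t0, hst⟩ := hc
  have hZ0 : ¬ ∀ t, Z t = 0 := by
    intro h
    exact hst (by rw [h, h]; ring)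
  -- `x` is transcendental
  have htr : Transcendental ℂ x := by
    intro h
    refine alg_one ht hg ?_
    rintro s (rfl | rfl)
    · exact h
    · have h1 : IsAlgebraic ℂ (s ^ 2) := by
        rw [hxy]
        exact ((h.pow 3).add ((isAlgebraic_algebraMap a).mul h)).add (isAlgebraic_algebraMap b)
      exact IsAlgebraic.of_pow (by norm_num : 0 < 2) h1
  -- a polynomial which vanishes at all values of `X / Z` is zero
  have hN : ∀ N : ℂ[X], (∀ t, Z t ≠ 0 → N.eval (X t / Z t) = 0) → N = 0 := by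
    intro N hN
    by_contra h0
    have h1 : ∀ t, Z t ≠ 0 → ∃ c ∈ N.roots, X t - c * Z t = 0 := by
      intro t hzt
      refine ⟨X t / Z t, (mem_roots h0).2 (hN t hzt), ?_⟩
      rw [div_mul_cancel₀ _ hzt, sub_self]
    have h2 : ∀ t, Z t * (N.roots.map fun c => X t - c * Z t).prod = 0 := by
      intro t
      by_cases hzt : Z t = 0
      · rw [hzt, zero_mul]
      · obtain ⟨c, hc, hc'⟩ := h1 t hzt
        rw [Multiset.prod_eq_zero (Multiset.mem_map.2 ⟨c, hc, hc'⟩), mul_zero]
    have aZ : AnalyticOnNhd ℂ Z Set.univ := fun z _ => hZ.analyticAt z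
    have key : ∀ s : Multiset ℂ, (∀ t, Z t * (s.map fun c => X t - c * Z t).prod = 0) →
        ∃ c : ℂ, ∀ t, X t - c * Z t = 0 := by
      intro s
      induction s using Multiset.induction_on with
      | empty =>
        intro h
        exfalso
        exact hZ0 fun t => by simpa using h t
      | cons c s ih =>
        intro h
        have aX : AnalyticOnNhd ℂ (fun t => X t - c * Z t) Set.univ := fun z _ =>
          (hX.sub (hZ.const_mul c)).analyticAt z
        have aW : AnalyticOnNhd ℂ (fun t => Z t * (s.map fun c => X t - c * Z t).prod)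
            Set.univ := by
          have hw : Differentiable ℂ (fun t => Z t * (s.map fun c => X t - c * Z t).prod) := by
            refine hZ.mul ?_
            clear ih h
            induction s using Multiset.induction_on with
            | empty => simp
            | cons c' s ih' =>
              simp only [Multiset.map_cons, Multiset.prod_cons]
              exact (hX.sub (hZ.const_mul c')).mul ih'
          exact fun z _ => hw.analyticAt z
        have h3 : ∀ t ∈ (Set.univ : Set ℂ), (fun t => X t - c * Z t) t *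
            (fun t => Z t * (s.map fun c => X t - c * Z t).prod) t = 0 := by
          intro t _
          have := h t
          rw [Multiset.map_cons, Multiset.prod_cons] at this
          show (X t - c * Z t) * (Z t * (s.map fun c => X t - c * Z t).prod) = 0
          rw [← this]; ring
        rcases AnalyticOnNhd.eq_zero_or_eq_zero_of_mul_eq_zero aX aW h3
          isPreconnected_univ with h4 | h4
        · exact ⟨c, fun t => h4 t (Set.mem_univ t)⟩
        · exact ih fun t => h4 t (Set.mem_univ t)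
    obtain ⟨c, hc⟩ := key _ h2
    apply hst
    rw [sub_eq_zero.1 (hc s0), sub_eq_zero.1 (hc t0)]; ring
  refine param (σ := Fin 2) (x := ![x, y]) (by
      rw [← hg]; congr 1
      ext z; simp [eq_comm, or_comm]) (X := ![X, Y]) (Z := Z)
    (fun i => by fin_cases i <;> simp [hX, hY]) hZ (fun P => ?_) v
  obtain ⟨A, B, hAB⟩ := red a b P
  have e1 : ∀ t, Z t ≠ 0 → MvPolynomial.eval (fun i => (![X, Y] : Fin 2 → ℂ → ℂ) i t / Z t) P =
      A.eval (X t / Z t) + (Y t / Z t) * B.eval (X t / Z t) := by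
    intro t hzt
    have h1 : (fun i => (![X, Y] : Fin 2 → ℂ → ℂ) i t / Z t) = ![X t / Z t, Y t / Z t] := by
      funext i; fin_cases i <;> rfl
    have h2 := hAB ℂ (X t / Z t) (Y t / Z t) (by
      have := hE t
      simp only [Algebra.algebraMap_self, RingHom.id_apply]
      field_simp
      linear_combination this)
    rw [h1, ← ae, h2, Polynomial.coe_aeval_eq_eval]
  have e2 := hAB L x y hxy
  have zero_of : ∀ C : ℂ[X], Polynomial.aeval x C = 0 → C = 0 := fun C hC =>
    (transcendental_iff.1 htr) C hC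
  constructor
  · intro h
    have h1 : A ^ 2 - B ^ 2 * (Polynomial.X ^ 3 + Polynomial.C a * Polynomial.X + Polynomial.C b)
        = 0 := by
      apply hN
      intro t hzt
      have h2 := h t hzt
      rw [e1 t hzt] at h2
      have h3 : (Y t / Z t) ^ 2 = (X t / Z t) ^ 3 + a * (X t / Z t) + b := by
        have := hE t
        field_simp
        linear_combination this
      simp only [Polynomial.eval_sub, Polynomial.eval_pow, Polynomial.eval_mul,
        Polynomial.eval_add, Polynomial.eval_X, Polynomial.eval_C]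
      rw [← h3]
      linear_combination (A.eval (X t / Z t) - (Y t / Z t) * B.eval (X t / Z t)) * h2
    obtain ⟨hA, hB⟩ := norm_zero (sub_eq_zero.1 h1)
    rw [e2, hA, hB]; simp
  · intro h t hzt
    rw [e2] at h
    have h1 : A ^ 2 - B ^ 2 * (Polynomial.X ^ 3 + Polynomial.C a * Polynomial.X + Polynomial.C b)
        = 0 := by
      apply zero_of
      simp only [map_sub, map_pow, map_mul, map_add, Polynomial.aeval_X, Polynomial.aeval_C]
      rw [← hxy]
      linear_combination (Polynomial.aeval x A - y * Polynomial.aeval x B) * h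
    obtain ⟨hA, hB⟩ := norm_zero (sub_eq_zero.1 h1)
    rw [e1 t hzt, hA, hB]; simp

end W3h

open Pool.Agent.Q103.SF Pool.Agent.W602.GT

/-- **Curves of genus at most one are Zariski closures of entire curves.** -/
theorem low_curve (hw : S_wei) (hc : S_cls) : S_low := by
  intro L _ _ _ hg M v _ _
  have ht : Algebra.trdeg ℂ L = 1 := FF.IsFF.trdeg
  have key : ∃ f : Fin (M + 1) → ℂ → ℂ, (∀ i, Differentiable ℂ (f i)) ∧
      ∀ (d : ℕ) (G : MvPolynomial (Fin (M + 1)) ℂ), G.IsHomogeneous d →
        ((∀ t, MvPolynomial.eval (fun i => f i t) G = 0) ↔ MvPolynomial.aeval v G = 0) := by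
    rcases hc L hg with ⟨τ, hτ⟩ | ⟨a, b, x, y, hab, hxy, hgen⟩
    · exact W3h.rat_case ht hτ v
    · obtain ⟨X, Y, Z, hX, hY, hZ, hE, hs⟩ := hw a b hab
      exact W3h.ell_case ht hxy hgen hX hY hZ hE hs v
  obtain ⟨f, hf, h⟩ := key
  exact ⟨f, hf, fun G hG => hG.elim fun d hd => h d G hd⟩

end Pool.Agent.Q24.SF
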