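import Pool.Agent.Q249.SF.Stm

/-!
# Project SF (helper249), job SF-AWP
-/

set_option autoImplicit false

open MeasureTheory Real Set Topology
open scoped FourierTransform SchwartzMap ENNReal

namespace Q24.SF

open Q249.SF

/-- kernels -/
structure Kn (κ : ℝ → ℝ) : Prop where
  cont : Continuous κ
  nn : ∀ u, 0 ≤ κ u
  even : ∀ u, κ (-u) = κ u
  int : ∀ k : ℕ, Integrable fun u => (1 + |u|) ^ k * κ u
  bdd : ∃ M : ℝ, ∀ u, κ u ≤ M

theorem ker_pos (u : ℝ) : 0 < ker u := Real.exp_pos _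

theorem ker_cont : Continuous ker := by
  unfold ker
  fun_prop

theorem ker_bound (k : ℕ) (u : ℝ) :
    (1 + |u|) ^ k * ker u ≤ (k.factorial * Real.exp 2) * Real.exp (-(2 * π - 1) * u ^ 2) := by
  have h0 : 0 ≤ |u| := abs_nonneg u
  have h1 : (1 + |u|) ^ k ≤ k.factorial * Real.exp (1 + |u|) := by
    have h2 := Real.pow_div_factorial_le_exp (1 + |u|) (by positivity) k
    rwa [div_le_iff₀ (by positivity), mul_comm] at h2
  have h3 : Real.exp (1 + |u|) * ker u ≤ Real.exp 2 * Real.exp (-(2 * π - 1) * u ^ 2) := by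
    unfold ker
    rw [← Real.exp_add, ← Real.exp_add, Real.exp_le_exp]
    have h4 : |u| ≤ 1 + u ^ 2 := by
      rw [← sq_abs u]
      nlinarith [sq_nonneg (|u| - 1)]
    linarith
  calc (1 + |u|) ^ k * ker u ≤ (k.factorial * Real.exp (1 + |u|)) * ker u :=
        mul_le_mul_of_nonneg_right h1 (ker_pos u).le
    _ = k.factorial * (Real.exp (1 + |u|) * ker u) := by ring
    _ ≤ k.factorial * (Real.exp 2 * Real.exp (-(2 * π - 1) * u ^ 2)) :=
        mul_le_mul_of_nonneg_left h3 (by positivity)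
    _ = _ := by ring

theorem ker_int (k : ℕ) : Integrable fun u => (1 + |u|) ^ k * ker u := by
  have hb : 0 < 2 * π - 1 := by have := Real.pi_gt_three; linarith
  refine ((integrable_exp_neg_mul_sq hb).const_mul (k.factorial * Real.exp 2)).mono'
    (Continuous.aestronglyMeasurable (by have := ker_cont; fun_prop)) ?_
  refine Filter.Eventually.of_forall fun u => ?_
  rw [Real.norm_eq_abs, abs_of_nonneg (mul_nonneg (by positivity) (ker_pos u).le)]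
  exact ker_bound k u

theorem kn_ker : Kn ker where
  cont := ker_cont
  nn u := (ker_pos u).le
  even u := by unfold ker; rw [neg_sq]
  int := ker_int
  bdd := by
    refine ⟨1, fun u => ?_⟩
    unfold ker
    rw [Real.exp_le_one_iff]
    have := Real.pi_pos
    nlinarith [sq_nonneg u]

theorem kn_ker2 : Kn (fun u => u ^ 2 * ker u) where
  cont := by have := ker_cont; fun_prop
  nn u := mul_nonneg (sq_nonneg u) (ker_pos u).le
  even u := by unfold ker; rw [neg_sq]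
  int k := by
    refine (ker_int (k + 2)).mono'
      (Continuous.aestronglyMeasurable (by have := ker_cont; fun_prop)) ?_
    refine Filter.Eventually.of_forall fun u => ?_
    have h1 : u ^ 2 ≤ (1 + |u|) ^ 2 := by
      rw [← sq_abs u]
      exact pow_le_pow_left₀ (abs_nonneg u) (by linarith) 2
    rw [Real.norm_eq_abs, abs_of_nonneg (mul_nonneg (by positivity)
      (mul_nonneg (sq_nonneg u) (ker_pos u).le)), pow_add, mul_assoc]
    exact mul_le_mul_of_nonneg_left (mul_le_mul_of_nonneg_right h1 (ker_pos u).le) (by positivity)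
  bdd := by
    refine ⟨(Nat.factorial 2 * Real.exp 2) * 1, fun u => ?_⟩
    have h1 : u ^ 2 ≤ (1 + |u|) ^ 2 := by
      rw [← sq_abs u]
      exact pow_le_pow_left₀ (abs_nonneg u) (by linarith) 2
    refine (mul_le_mul_of_nonneg_right h1 (ker_pos u).le).trans ((ker_bound 2 u).trans ?_)
    refine mul_le_mul_of_nonneg_left ?_ (by positivity)
    rw [Real.exp_le_one_iff]
    have := Real.pi_gt_three
    nlinarith [sq_nonneg u]

/-- average with a kernel -/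
noncomputable def avk (κ w : ℝ → ℝ) (y : ℝ) : ℝ := ∫ u, w (y + u) * κ u

/-- weights -/
structure Wt (w : ℝ → ℝ) : Prop where
  cont : Continuous w
  nn : ∀ x, 0 ≤ w x
  gr : PolyGr w

theorem Wt.bound {w : ℝ → ℝ} (hw : Wt w) : ∃ (C : ℝ) (k : ℕ), 0 ≤ C ∧
    ∀ y u, w (y + u) ≤ C * (1 + |y|) ^ k * (1 + |u|) ^ k := by
  obtain ⟨C, k, hC⟩ := hw.gr
  have hC0 : 0 ≤ C := by
    have h1 := hC 0
    have h2 := hw.nn 0
    simp at h1
    linarith
  refine ⟨C, k, hC0, fun y u => (hC _).trans ?_⟩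
  rw [mul_assoc, ← mul_pow]
  refine mul_le_mul_of_nonneg_left (pow_le_pow_left₀ (by positivity) ?_ k) hC0
  have h1 := abs_add_le y u
  have h2 : 0 ≤ |y| * |u| := by positivity
  nlinarith

variable {κ w : ℝ → ℝ}

theorem int_avk (hκ : Kn κ) (hw : Wt w) (y : ℝ) : Integrable fun u => w (y + u) * κ u := by
  obtain ⟨C, k, hC, h⟩ := hw.bound
  refine ((hκ.int k).const_mul (C * (1 + |y|) ^ k)).mono' (Continuous.aestronglyMeasurable
    ((hw.cont.comp (continuous_const.add continuous_id)).mul hκ.cont)) ?_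
  refine Filter.Eventually.of_forall fun u => ?_
  rw [Real.norm_eq_abs, abs_of_nonneg (mul_nonneg (hw.nn _) (hκ.nn _)), ← mul_assoc]
  exact mul_le_mul_of_nonneg_right (h y u) (hκ.nn _)

theorem avk_nonneg (hκ : Kn κ) (hw : Wt w) (y : ℝ) : 0 ≤ avk κ w y :=
  integral_nonneg fun _ => mul_nonneg (hw.nn _) (hκ.nn _)

theorem avk_bound (hκ : Kn κ) (hw : Wt w) : ∃ (C : ℝ) (k : ℕ), 0 ≤ C ∧
    ∀ y, avk κ w y ≤ C * (1 + |y|) ^ k := by
  obtain ⟨C, k, hC, h⟩ := hw.bound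
  refine ⟨C * ∫ u, (1 + |u|) ^ k * κ u, k,
    mul_nonneg hC (integral_nonneg fun u => mul_nonneg (by positivity) (hκ.nn _)), fun y => ?_⟩
  have h1 : avk κ w y ≤ ∫ u, (C * (1 + |y|) ^ k) * ((1 + |u|) ^ k * κ u) := by
    refine integral_mono (int_avk hκ hw y) ((hκ.int k).const_mul _) fun u => ?_
    change w (y + u) * κ u ≤ (C * (1 + |y|) ^ k) * ((1 + |u|) ^ k * κ u)
    rw [← mul_assoc]
    exact mul_le_mul_of_nonneg_right (h y u) (hκ.nn _)
  rw [integral_const_mul] at h1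
  refine h1.trans (le_of_eq ?_)
  ring

theorem avk_meas (hκ : Kn κ) (hw : Wt w) : StronglyMeasurable (avk κ w) := by
  have h1 : Continuous fun z : ℝ × ℝ => w (z.1 + z.2) * κ z.2 :=
    (hw.cont.comp (continuous_fst.add continuous_snd)).mul (hκ.cont.comp continuous_snd)
  exact h1.stronglyMeasurable.integral_prod_right

/-- polynomially bounded functions times the square of a Schwartz function -/
theorem schwartz_int (f : 𝓢(ℝ, ℂ)) (k : ℕ) : Integrable fun y => (1 + |y|) ^ k * ‖f y‖ ^ 2 := by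
  obtain ⟨B, hB⟩ : ∃ B : ℝ, ∀ y, ‖f y‖ ≤ B := by
    refine ⟨SchwartzMap.seminorm ℂ 0 0 f, fun y => ?_⟩
    exact SchwartzMap.norm_le_seminorm ℂ f y
  have hB0 : 0 ≤ B := (norm_nonneg _).trans (hB 0)
  have h1 : Integrable fun y => (2 ^ k * B) * (‖y‖ ^ 0 * ‖f y‖ + ‖y‖ ^ k * ‖f y‖) :=
    ((SchwartzMap.integrable_pow_mul volume f 0).add
      (SchwartzMap.integrable_pow_mul volume f k)).const_mul _
  refine h1.mono' (Continuous.aestronglyMeasurable (by have := f.continuous; fun_prop)) ?_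
  refine Filter.Eventually.of_forall fun y => ?_
  rw [Real.norm_eq_abs, abs_of_nonneg (by positivity)]
  have h2 : (1 + |y|) ^ k ≤ 2 ^ k * (1 + |y| ^ k) := by
    rcases le_total |y| 1 with h | h
    · calc (1 + |y|) ^ k ≤ 2 ^ k := pow_le_pow_left₀ (by positivity) (by linarith) k
        _ ≤ 2 ^ k * (1 + |y| ^ k) := by
          have : 0 ≤ (2 : ℝ) ^ k * |y| ^ k := by positivity
          linarith
    · calc (1 + |y|) ^ k ≤ (2 * |y|) ^ k := pow_le_pow_left₀ (by positivity) (by linarith) k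
        _ = 2 ^ k * |y| ^ k := mul_pow _ _ _
        _ ≤ 2 ^ k * (1 + |y| ^ k) := by
          have : 0 ≤ (2 : ℝ) ^ k := by positivity
          linarith
  have h3 : ‖f y‖ ^ 2 ≤ B * ‖f y‖ := by
    rw [sq]
    exact mul_le_mul_of_nonneg_right (hB y) (norm_nonneg _)
  calc (1 + |y|) ^ k * ‖f y‖ ^ 2 ≤ (2 ^ k * (1 + |y| ^ k)) * (B * ‖f y‖) :=
        mul_le_mul h2 h3 (by positivity) (by positivity)
    _ = _ := by rw [Real.norm_eq_abs y]; ring

theorem schwartz_int0 (f : 𝓢(ℝ, ℂ)) : Integrable fun y => ‖f y‖ ^ 2 := by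
  simpa using schwartz_int f 0

theorem int_avk_mul (hκ : Kn κ) (hw : Wt w) (f : 𝓢(ℝ, ℂ)) :
    Integrable fun y => avk κ w y * ‖f y‖ ^ 2 := by
  obtain ⟨C, k, hC, h⟩ := avk_bound hκ hw
  refine ((schwartz_int f k).const_mul C).mono' ((avk_meas hκ hw).aestronglyMeasurable.mul
    (Continuous.aestronglyMeasurable (by have := f.continuous; fun_prop))) ?_
  refine Filter.Eventually.of_forall fun y => ?_
  rw [Real.norm_eq_abs, abs_of_nonneg (mul_nonneg (avk_nonneg hκ hw y) (sq_nonneg _)), ← mul_assoc]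
  exact mul_le_mul_of_nonneg_right (h y) (sq_nonneg _)

theorem int_conv (hκ : Kn κ) (f : 𝓢(ℝ, ℂ)) (x : ℝ) :
    Integrable fun y => ‖f y‖ ^ 2 * κ (y - x) := by
  obtain ⟨M, hM⟩ := hκ.bdd
  refine ((schwartz_int0 f).mul_const M).mono' (Continuous.aestronglyMeasurable
    (by have := f.continuous; have := hκ.cont; fun_prop)) ?_
  refine Filter.Eventually.of_forall fun y => ?_
  rw [Real.norm_eq_abs, abs_of_nonneg (mul_nonneg (sq_nonneg _) (hκ.nn _))]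
  exact mul_le_mul_of_nonneg_left (hM _) (sq_nonneg _)

/-- Tonelli -/
theorem tonelli (hκ : Kn κ) (hw : Wt w) (f : 𝓢(ℝ, ℂ)) :
    ENNReal.ofReal (∫ y, avk κ w y * ‖f y‖ ^ 2) =
      ∫⁻ x, ENNReal.ofReal (w x) * ENNReal.ofReal (∫ y, ‖f y‖ ^ 2 * κ (y - x)) := by
  have hf := f.continuous
  have hκc := hκ.cont
  have hwc := hw.cont
  rw [ofReal_integral_eq_lintegral_ofReal (int_avk_mul hκ hw f)
    (Filter.Eventually.of_forall fun y => mul_nonneg (avk_nonneg hκ hw y) (sq_nonneg _))]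
  have h1 : ∀ y, ENNReal.ofReal (avk κ w y * ‖f y‖ ^ 2) =
      ∫⁻ x, ENNReal.ofReal (w x * κ (x - y) * ‖f y‖ ^ 2) := by
    intro y
    unfold avk
    rw [← integral_mul_const, ofReal_integral_eq_lintegral_ofReal
      ((int_avk hκ hw y).mul_const _) (Filter.Eventually.of_forall fun u =>
        mul_nonneg (mul_nonneg (hw.nn _) (hκ.nn _)) (sq_nonneg _))]
    rw [← lintegral_sub_right_eq_self _ y]
    refine lintegral_congr fun x => ?_
    rw [add_sub_cancel]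
  have h2 : ∀ x, ENNReal.ofReal (w x) * ENNReal.ofReal (∫ y, ‖f y‖ ^ 2 * κ (y - x)) =
      ∫⁻ y, ENNReal.ofReal (w x * κ (x - y) * ‖f y‖ ^ 2) := by
    intro x
    rw [← ENNReal.ofReal_mul (hw.nn x), ← integral_const_mul, ofReal_integral_eq_lintegral_ofReal
      ((int_conv hκ f x).const_mul _) (Filter.Eventually.of_forall fun _ =>
        mul_nonneg (hw.nn _) (mul_nonneg (sq_nonneg _) (hκ.nn _)))]
    refine lintegral_congr fun y => ?_
    rw [← hκ.even (y - x), neg_sub]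
    congr 1
    ring
  rw [lintegral_congr h1, lintegral_congr h2]
  refine lintegral_lintegral_swap (Measurable.aemeasurable ?_)
  refine ENNReal.measurable_ofReal.comp (Continuous.measurable ?_)
  fun_prop

theorem Ph_nonneg (f : ℝ → ℂ) (x ξ : ℝ) : 0 ≤ Ph f x ξ := sq_nonneg _

theorem av_eq (w : ℝ → ℝ) : av w = avk ker w := rfl

theorem av2_eq (w : ℝ → ℝ) : av2 w = avk (fun u => u ^ 2 * ker u) w := rfl

/-- one side -/
theorem side (hSTA : S_STA) (f : 𝓢(ℝ, ℂ)) {w : ℝ → ℝ} (hw : Wt w) {δ : ℝ} (hδ : 0 < δ) :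
    ENNReal.ofReal ((1 / (4 * π ^ 2)) * ∫ y, av w y * ‖deriv f y‖ ^ 2) ≤
      ENNReal.ofReal (1 + δ) * (∫⁻ x, ENNReal.ofReal (w x) *
        ENNReal.ofReal (∫ ξ, ξ ^ 2 * Ph f x ξ)) +
      ENNReal.ofReal ((1 + 1 / δ) * ∫ y, av2 w y * ‖f y‖ ^ 2) := by
  have hf' : ∀ y, deriv f y = SchwartzMap.derivCLM ℂ ℂ f y := fun y => rfl
  simp only [hf', av_eq, av2_eq]
  have h4 : 0 ≤ 1 / (4 * π ^ 2) := by positivity
  have hd : 0 ≤ 1 + 1 / δ := by positivity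
  have hd' : 0 ≤ 1 + δ := by positivity
  rw [ENNReal.ofReal_mul h4, ENNReal.ofReal_mul hd, tonelli kn_ker hw, tonelli kn_ker2 hw,
    ← lintegral_const_mul' _ _ ENNReal.ofReal_ne_top, ← lintegral_const_mul' _ _ ENNReal.ofReal_ne_top,
    ← lintegral_const_mul' _ _ ENNReal.ofReal_ne_top]
  have hm : Measurable fun x => ENNReal.ofReal (1 + 1 / δ) * (ENNReal.ofReal (w x) *
      ENNReal.ofReal (∫ y, ‖f y‖ ^ 2 * ((y - x) ^ 2 * ker (y - x)))) := by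
    have hf := f.continuous
    have hk := ker_cont
    have h1 : Continuous fun z : ℝ × ℝ => ‖f z.2‖ ^ 2 * ((z.2 - z.1) ^ 2 * ker (z.2 - z.1)) := by
      fun_prop
    have h2 : StronglyMeasurable fun x : ℝ => ∫ y, ‖f y‖ ^ 2 * ((y - x) ^ 2 * ker (y - x)) :=
      h1.stronglyMeasurable.integral_prod_right
    exact ((ENNReal.measurable_ofReal.comp hw.cont.measurable).mul
      (ENNReal.measurable_ofReal.comp h2.measurable)).const_mul _
  rw [← lintegral_add_right _ hm]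
  refine lintegral_mono fun x => ?_
  have h5 := (hSTA f x).2.2.2 δ hδ
  have h6 : 0 ≤ ∫ ξ, ξ ^ 2 * Ph f x ξ :=
    integral_nonneg fun ξ => mul_nonneg (sq_nonneg _) (Ph_nonneg _ _ _)
  have h7 : 0 ≤ ∫ y, ‖f y‖ ^ 2 * ((y - x) ^ 2 * ker (y - x)) :=
    integral_nonneg fun y => mul_nonneg (sq_nonneg _) (mul_nonneg (sq_nonneg _) (ker_pos _).le)
  have h8 : 0 ≤ ∫ y, ‖SchwartzMap.derivCLM ℂ ℂ f y‖ ^ 2 * ker (y - x) :=
    integral_nonneg fun y => mul_nonneg (sq_nonneg _) (ker_pos _).le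
  have h9 := hw.nn x
  rw [← ENNReal.ofReal_mul h9, ← ENNReal.ofReal_mul h9, ← ENNReal.ofReal_mul h9,
    ← ENNReal.ofReal_mul h4, ← ENNReal.ofReal_mul hd, ← ENNReal.ofReal_mul hd',
    ← ENNReal.ofReal_add (mul_nonneg hd' (mul_nonneg h9 h6)) (mul_nonneg hd (mul_nonneg h9 h7))]
  refine ENNReal.ofReal_le_ofReal ?_
  have h10 := mul_le_mul_of_nonneg_left h5 h9
  simp only [hf'] at h10
  nlinarith [h10]

/-- integration in the frequency -/
theorem freq (f : 𝓢(ℝ, ℂ)) {a : ℝ → ℝ} (ha : ∀ x, 0 ≤ a x) {q : ℝ → ℝ} (hq : ∀ ξ, 0 ≤ q ξ)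
    (hint : ∀ x, Integrable fun ξ => q ξ * Ph f x ξ) :
    ∫⁻ x, ENNReal.ofReal (a x) * ENNReal.ofReal (∫ ξ, q ξ * Ph f x ξ) =
      ∫⁻ x, ∫⁻ ξ, ENNReal.ofReal (a x * (q ξ * Ph f x ξ)) := by
  refine lintegral_congr fun x => ?_
  rw [ofReal_integral_eq_lintegral_ofReal (hint x)
    (Filter.Eventually.of_forall fun ξ => mul_nonneg (hq ξ) (Ph_nonneg _ _ _)),
    ← lintegral_const_mul' _ _ ENNReal.ofReal_ne_top]
  refine lintegral_congr fun ξ => ?_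
  rw [ENNReal.ofReal_mul (ha x)]

/-- change of the roles of position and frequency -/
theorem swp (hSTB : S_STB) (f : 𝓢(ℝ, ℂ)) {a : ℝ → ℝ} {q : ℝ → ℝ} (hqe : ∀ ξ, q (-ξ) = q ξ) :
    ∫⁻ ξ, ∫⁻ x, ENNReal.ofReal (a ξ * (q x * Ph (𝓕 f : 𝓢(ℝ, ℂ)) ξ x)) =
      ∫⁻ ξ, ∫⁻ x, ENNReal.ofReal (a ξ * (q x * Ph f x ξ)) := by
  refine lintegral_congr fun ξ => ?_
  have h1 := lintegral_neg_eq_self
    (fun x => ENNReal.ofReal (a ξ * (q x * Ph (𝓕 f : 𝓢(ℝ, ℂ)) ξ x))) (μ := (volume : Measure ℝ))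
  rw [← h1]
  refine lintegral_congr fun x => ?_
  rw [hqe, (hSTB f).1]

/-- the pointwise inequality integrated over the plane -/
theorem plane (hSTA : S_STA) (hSTB : S_STB) (f : 𝓢(ℝ, ℂ)) {w₁ a₁ w₂ a₂ : ℝ → ℝ} (hw₁ : Wt w₁)
    (ha₁ : Wt a₁) (hw₂ : Wt w₂) (ha₂ : Wt a₂)
    (h : ∀ x ξ, w₁ x * ξ ^ 2 + w₂ ξ * x ^ 2 ≤ a₁ x + a₂ ξ) :
    (∫⁻ x, ENNReal.ofReal (w₁ x) * ENNReal.ofReal (∫ ξ, ξ ^ 2 * Ph f x ξ)) +
      (∫⁻ x, ENNReal.ofReal (w₂ x) * ENNReal.ofReal (∫ ξ, ξ ^ 2 * Ph (𝓕 f : 𝓢(ℝ, ℂ)) x ξ)) ≤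
    ENNReal.ofReal (∫ y, av a₁ y * ‖f y‖ ^ 2) +
      ENNReal.ofReal (∫ y, av a₂ y * ‖(𝓕 f : 𝓢(ℝ, ℂ)) y‖ ^ 2) := by
  have hP : Continuous fun z : ℝ × ℝ => Ph f z.1 z.2 := (hSTB f).2
  have hw₁c := hw₁.cont
  have ha₁c := ha₁.cont
  have hw₂c := hw₂.cont
  have ha₂c := ha₂.cont
  have e1 : ∀ (g : 𝓢(ℝ, ℂ)) (x : ℝ), ∫ y, ‖g y‖ ^ 2 * ker (y - x) = ∫ ξ, 1 * Ph g x ξ := by
    intro g x
    rw [← (hSTA g x).2.2.1]
    simp only [one_mul]
  have hi1 : ∀ (g : 𝓢(ℝ, ℂ)) (x : ℝ), Integrable fun ξ => 1 * Ph g x ξ := by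
    intro g x
    simp only [one_mul]
    exact (hSTA g x).1
  rw [av_eq, av_eq, tonelli kn_ker ha₁, tonelli kn_ker ha₂]
  simp only [e1]
  rw [freq f hw₁.nn sq_nonneg fun x => (hSTA f x).2.1,
    freq (𝓕 f) hw₂.nn sq_nonneg fun x => (hSTA (𝓕 f) x).2.1,
    freq f ha₁.nn (fun _ => zero_le_one) (hi1 f),
    freq (𝓕 f) ha₂.nn (fun _ => zero_le_one) (hi1 (𝓕 f)),
    swp hSTB f (a := w₂) (q := fun x => x ^ 2) (fun ξ => neg_sq ξ),
    swp hSTB f (a := a₂) (q := fun _ => 1) (fun ξ => rfl)]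
  have m : ∀ g : ℝ × ℝ → ℝ, Continuous g → Measurable fun z => ENNReal.ofReal (g z) :=
    fun g hg => ENNReal.measurable_ofReal.comp hg.measurable
  have m1 := m (fun z => w₁ z.1 * (z.2 ^ 2 * Ph f z.1 z.2)) (by fun_prop)
  have m2 := m (fun z => w₂ z.2 * (z.1 ^ 2 * Ph f z.1 z.2)) (by fun_prop)
  have m3 := m (fun z => a₁ z.1 * (1 * Ph f z.1 z.2)) (by fun_prop)
  have m4 := m (fun z => a₂ z.2 * (1 * Ph f z.1 z.2)) (by fun_prop)
  have l1 := lintegral_prod (μ := (volume : Measure ℝ)) (ν := (volume : Measure ℝ)) _ m1.aemeasurable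
  have l2 := lintegral_prod_symm (μ := (volume : Measure ℝ)) (ν := (volume : Measure ℝ)) _
    m2.aemeasurable
  have l3 := lintegral_prod (μ := (volume : Measure ℝ)) (ν := (volume : Measure ℝ)) _ m3.aemeasurable
  have l4 := lintegral_prod_symm (μ := (volume : Measure ℝ)) (ν := (volume : Measure ℝ)) _
    m4.aemeasurable
  simp only at l1 l2 l3 l4
  rw [← l1, ← l2, ← l3, ← l4, ← lintegral_add_left m1, ← lintegral_add_left m3]
  refine lintegral_mono fun z => ?_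
  have h1 := Ph_nonneg f z.1 z.2
  have h2 := hw₁.nn z.1
  have h3 := hw₂.nn z.2
  have h4 := ha₁.nn z.1
  have h5 := ha₂.nn z.2
  rw [← ENNReal.ofReal_add (by positivity) (by positivity),
    ← ENNReal.ofReal_add (by positivity) (by positivity)]
  refine ENNReal.ofReal_le_ofReal ?_
  have h6 := mul_le_mul_of_nonneg_right (h z.1 z.2) h1
  nlinarith [h6]

theorem t_AWP : S_STA → S_STB → S_AWP := by
  intro hSTA hSTB f w₁ a₁ w₂ a₂ c1 c2 c3 c4 n1 n2 n3 n4 g1 g2 g3 g4 hineq δ hδ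
  have hw₁ : Wt w₁ := ⟨c1, n1, g1⟩
  have ha₁ : Wt a₁ := ⟨c2, n2, g2⟩
  have hw₂ : Wt w₂ := ⟨c3, n3, g3⟩
  have ha₂ : Wt a₂ := ⟨c4, n4, g4⟩
  have h4 : 0 ≤ 1 / (4 * π ^ 2) := by positivity
  have hd : 0 ≤ 1 + 1 / δ := by positivity
  have hd' : 0 ≤ 1 + δ := by positivity
  have r : ∀ (g : 𝓢(ℝ, ℂ)) (w a : ℝ → ℝ), Wt w → Wt a →
      ∫ y, ((1 + δ) * av a y + (1 + 1 / δ) * av2 w y) * ‖g y‖ ^ 2 =
        (1 + δ) * (∫ y, av a y * ‖g y‖ ^ 2) + (1 + 1 / δ) * ∫ y, av2 w y * ‖g y‖ ^ 2 := by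
    intro g w a hw ha
    have hA : Integrable fun y => (1 + δ) * (av a y * ‖g y‖ ^ 2) :=
      (int_avk_mul kn_ker ha g).const_mul _
    have hB : Integrable fun y => (1 + 1 / δ) * (av2 w y * ‖g y‖ ^ 2) :=
      (int_avk_mul kn_ker2 hw g).const_mul _
    rw [← integral_const_mul, ← integral_const_mul, ← integral_add hA hB]
    refine integral_congr_ae (Filter.Eventually.of_forall fun y => ?_)
    simp only
    ring
  have p0 : ∀ (κ : ℝ → ℝ) (w : ℝ → ℝ) (g : ℝ → ℂ), Kn κ → Wt w →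
      0 ≤ ∫ y, avk κ w y * ‖g y‖ ^ 2 := fun κ w g hκ hw =>
    integral_nonneg fun y => mul_nonneg (avk_nonneg hκ hw y) (sq_nonneg _)
  rw [r f w₁ a₁ hw₁ ha₁, r (𝓕 f) w₂ a₂ hw₂ ha₂]
  have s1 := side hSTA f hw₁ hδ
  have s2 := side hSTA (𝓕 f) hw₂ hδ
  have s3 := plane hSTA hSTB f hw₁ ha₁ hw₂ ha₂ hineq
  have i1 := p0 ker w₁ (deriv f) kn_ker hw₁
  have i2 := p0 ker w₂ (deriv (𝓕 f : 𝓢(ℝ, ℂ))) kn_ker hw₂
  have j1 := p0 ker a₁ f kn_ker ha₁
  have j2 := p0 ker a₂ (𝓕 f : 𝓢(ℝ, ℂ)) kn_ker ha₂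
  have k1 := p0 _ w₁ f kn_ker2 hw₁
  have k2 := p0 _ w₂ (𝓕 f : 𝓢(ℝ, ℂ)) kn_ker2 hw₂
  rw [← av_eq] at i1 i2 j1 j2
  rw [← av2_eq] at k1 k2
  have hR : 0 ≤ (1 + δ) * (∫ y, av a₁ y * ‖f y‖ ^ 2) + (1 + 1 / δ) * (∫ y, av2 w₁ y * ‖f y‖ ^ 2) +
      ((1 + δ) * (∫ y, av a₂ y * ‖(𝓕 f : 𝓢(ℝ, ℂ)) y‖ ^ 2) +
        (1 + 1 / δ) * (∫ y, av2 w₂ y * ‖(𝓕 f : 𝓢(ℝ, ℂ)) y‖ ^ 2)) := by
    positivity
  rw [← ENNReal.ofReal_le_ofReal_iff hR, mul_add, ENNReal.ofReal_add (mul_nonneg h4 i1)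
    (mul_nonneg h4 i2)]
  refine (add_le_add s1 s2).trans ?_
  have s4 := mul_le_mul_right s3 (ENNReal.ofReal (1 + δ))
  rw [mul_add] at s4
  rw [add_add_add_comm]
  refine (add_le_add s4 le_rfl).trans (le_of_eq ?_)
  rw [← ENNReal.ofReal_add j1 j2, ← ENNReal.ofReal_mul hd',
    ← ENNReal.ofReal_add (mul_nonneg hd k1) (mul_nonneg hd k2),
    ← ENNReal.ofReal_add (mul_nonneg hd' (add_nonneg j1 j2))
      (add_nonneg (mul_nonneg hd k1) (mul_nonneg hd k2))]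
  congr 1
  ring

end Q24.SF
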