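import Pool.Agent.Q249.SF.Stm
import Pool.Agent.Q24.SF.AWP

/-!
# Project SF (helper249), job SF-SID
-/

set_option autoImplicit false

open MeasureTheory Real Set Topology
open scoped FourierTransform SchwartzMap ENNReal

namespace Q24.SF

open Q249.SF

theorem Slope.wt {K : ℕ} {w : ℝ → ℝ} (h : Slope K w) : Wt w := by
  obtain ⟨h1, h2, h3, h4⟩ := h
  refine ⟨h1, h2, w 1, K, fun x => ?_⟩
  have h5 : w x ≤ w ((1 + |x|) * 1) := by
    refine h3 _ _ ?_
    rw [mul_one, abs_of_nonneg (by positivity : 0 ≤ 1 + |x|)]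
    linarith
  refine h5.trans ((h4 _ 1 (by linarith [abs_nonneg x])).trans (le_of_eq ?_))
  ring

/-- the half open intervals between the nodes cover the line -/
theorem cover {x : ℤ → ℝ} (hm : Monotone x) (h1 : Filter.Tendsto x Filter.atTop Filter.atTop)
    (h2 : Filter.Tendsto x Filter.atBot Filter.atBot) : (⋃ n, Ioc (x n) (x (n + 1))) = univ := by
  refine eq_univ_of_forall fun t => ?_
  obtain ⟨N, hN⟩ := (h1.eventually (Filter.eventually_ge_atTop t)).exists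
  obtain ⟨m, hm'⟩ := (h2.eventually (Filter.eventually_lt_atBot t)).exists
  obtain ⟨n, hn1, hn2⟩ := Int.exists_greatest_of_bdd (P := fun n => x n < t)
    ⟨N, fun z hz => by
      by_contra hcon
      push Not at hcon
      exact absurd (hN.trans (hm hcon.le)) (not_le.2 hz)⟩ ⟨m, hm'⟩
  rw [mem_iUnion]
  refine ⟨n, hn1, ?_⟩
  by_contra hcon
  push Not at hcon
  have := hn2 _ hcon
  omega

theorem summ : Summable fun n : ℤ => 1 / (1 + |(n : ℝ)|) ^ 2 := by
  have h1 : Summable fun n : ℕ => 1 / ((n : ℝ) + 1) ^ 2 := by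
    have h2 := (summable_nat_add_iff 1).2 (Real.summable_one_div_nat_pow.2 (one_lt_two))
    refine h2.congr fun n => ?_
    push_cast
    rfl
  rw [summable_int_iff_summable_nat_and_neg]
  constructor
  · refine h1.congr fun n => ?_
    rw [Int.cast_natCast, abs_of_nonneg (Nat.cast_nonneg n), add_comm]
  · refine h1.congr fun n => ?_
    rw [Int.cast_neg, Int.cast_natCast, abs_neg, abs_of_nonneg (Nat.cast_nonneg n), add_comm]

theorem hasSum_Ioc {x : ℤ → ℝ} (hm : Monotone x) (h1 : Filter.Tendsto x Filter.atTop Filter.atTop)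
    (h2 : Filter.Tendsto x Filter.atBot Filter.atBot) {g : ℝ → ℝ} (hg : Integrable g) :
    HasSum (fun n => ∫ t in x n..x (n + 1), g t) (∫ t, g t) := by
  have h3 := hasSum_integral_iUnion (μ := (volume : Measure ℝ)) (f := g)
    (s := fun n : ℤ => Ioc (x n) (x (n + 1))) (fun n => measurableSet_Ioc)
    (by
      have h4 := hm.pairwise_disjoint_on_Ioc_succ
      exact h4) (hg.integrableOn)
  rw [cover hm h1 h2, setIntegral_univ] at h3
  have h5 : (fun n => ∫ t in x n..x (n + 1), g t) = fun n => ∫ t in Ioc (x n) (x (n + 1)), g t :=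
    funext fun n => intervalIntegral.integral_of_le (hm (by omega))
  rw [h5]
  exact h3

theorem t_SID : S_INT → S_WGR → S_WUP → S_SID := by
  intro hINT hWGR hWUP γ θ x hγ hθ hθ1 hN K
  obtain ⟨hm, ht1, ht2, -⟩ := id hN
  obtain ⟨M, C₁, hM, hC₁, hint⟩ := hINT γ θ x hγ hθ hθ1 hN K
  obtain ⟨K', hK'⟩ := hWUP γ hγ K
  obtain ⟨Ca, ka, hCa, hga⟩ := hWGR.1 K'
  obtain ⟨Cb, kb, hCb, hgb⟩ := hWGR.1 K
  -- the exceptional intervals
  obtain ⟨N₁, hN₁⟩ := (ht1.eventually (Filter.eventually_ge_atTop M)).exists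
  obtain ⟨N₀, hN₀⟩ := (ht2.eventually (Filter.eventually_le_atBot (-M))).exists
  obtain ⟨M', hM'⟩ : ∃ M' : ℝ, M' = max |x N₀| |x N₁| := ⟨_, rfl⟩
  have hM'0 : 0 ≤ M' := by rw [hM']; exact (abs_nonneg _).trans (le_max_left _ _)
  have hexc : ∀ n, ¬ (M ≤ x n ∨ x (n + 1) ≤ -M) → ∀ t ∈ Ioc (x n) (x (n + 1)), |t| ≤ M' := by
    intro n hn t ht
    push Not at hn
    have h1 : n < N₁ := by
      by_contra hcon
      push Not at hcon
      exact absurd (hN₁.trans (hm hcon)) (not_le.2 hn.1)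
    have h2 : N₀ < n + 1 := by
      by_contra hcon
      push Not at hcon
      exact absurd ((hm hcon).trans hN₀) (not_le.2 hn.2)
    have h3 : x N₀ ≤ x n := hm (by omega)
    have h4 : x (n + 1) ≤ x N₁ := hm (by omega)
    rw [abs_le, hM']
    have h5 := neg_abs_le (x N₀)
    have h6 := le_abs_self (x N₁)
    have h7 := le_max_left |x N₀| |x N₁|
    have h8 := le_max_right |x N₀| |x N₁|
    constructor
    · linarith [ht.1]
    · linarith [ht.2]
  obtain ⟨δ, hδ⟩ : ∃ δ : ℝ, δ = (1 - θ) / 4 := ⟨_, rfl⟩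
  have hδ0 : 0 < δ := by rw [hδ]; linarith
  obtain ⟨C₂, hC₂⟩ : ∃ C₂ : ℝ, C₂ = (1 + δ) * (Ca * (1 + M') ^ ka) +
    (1 + 1 / δ) * (Cb * (1 + M') ^ kb) := ⟨_, rfl⟩
  have hC₂0 : 0 ≤ C₂ := by rw [hC₂]; positivity
  obtain ⟨S, hS⟩ : ∃ S : ℝ, S = (∑' n : ℤ, 1 / (1 + |(n : ℝ)|) ^ 2) +
    ∑' n : ℤ, 1 / (1 + |((n + 1 : ℤ) : ℝ)|) ^ 2 := ⟨_, rfl⟩
  have hsum1 := summ.hasSum
  have hsum2 : HasSum (fun n : ℤ => 1 / (1 + |((n + 1 : ℤ) : ℝ)|) ^ 2)
      (∑' n : ℤ, 1 / (1 + |((n + 1 : ℤ) : ℝ)|) ^ 2) :=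
    ((Equiv.addRight (1 : ℤ)).summable_iff.2 summ).hasSum
  have hsum : HasSum (fun n : ℤ => 1 / (1 + |(n : ℝ)|) ^ 2 + 1 / (1 + |((n + 1 : ℤ) : ℝ)|) ^ 2) S := by
    rw [hS]
    exact hsum1.add hsum2
  have hS0 : 0 ≤ S := hsum.nonneg fun n => by positivity
  refine ⟨max (C₁ * S) C₂, (mul_nonneg hC₁ hS0).trans (le_max_left _ _), ?_⟩
  intro w hw f B hB
  have hwt : Wt w := Slope.wt hw
  have hup : Slope K' (up γ w) := hK' w hw
  have hupt : Wt (up γ w) := Slope.wt hup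
  have hup1 : up γ w 1 = w 1 := by
    unfold up
    rw [abs_one, Real.one_rpow, mul_one]
  have hw1 : 0 ≤ w 1 := hwt.nn 1
  have hB0 : 0 ≤ B := le_trans (mul_nonneg (by positivity)
    (mul_nonneg (hupt.nn _) (sq_nonneg _))) (hB 0)
  -- integrability
  have hi1 : Integrable fun t => PP δ γ w t * ‖f t‖ ^ 2 := by
    have hA : Integrable fun t => (1 + δ) * (av (up γ w) t * ‖f t‖ ^ 2) :=
      (int_avk_mul kn_ker hupt f).const_mul _
    have hB' : Integrable fun t => (1 + 1 / δ) * (av2 w t * ‖f t‖ ^ 2) :=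
      (int_avk_mul kn_ker2 hwt f).const_mul _
    refine (hA.add hB').congr (Filter.Eventually.of_forall fun t => ?_)
    simp only [Pi.add_apply, PP]
    ring
  have hi2 : Integrable fun t => av w t * ‖deriv f t‖ ^ 2 :=
    int_avk_mul kn_ker hwt (SchwartzMap.derivCLM ℂ ℂ f)
  have hi3 : Integrable fun t => ‖f t‖ ^ 2 := schwartz_int0 f
  have s1 := hasSum_Ioc hm ht1 ht2 hi1
  have s2 := hasSum_Ioc hm ht1 ht2 hi2
  have s3 := hasSum_Ioc hm ht1 ht2 hi3
  have hnn : ∀ n, x n ≤ x (n + 1) := fun n => hm (by omega)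
  -- the bound at the nodes
  have hnode : ∀ n : ℤ, up γ w (x n) * ‖f (x n)‖ ^ 2 ≤ B * (1 / (1 + |(n : ℝ)|) ^ 2) := by
    intro n
    have h1 := hB n
    rw [mul_one_div, le_div_iff₀ (by positivity), mul_comm]
    exact h1
  have hterm : ∀ n : ℤ, ∫ t in x n..x (n + 1), PP δ γ w t * ‖f t‖ ^ 2 ≤
      θ * (1 / (4 * π ^ 2)) * (∫ t in x n..x (n + 1), av w t * ‖deriv f t‖ ^ 2) +
      C₁ * B * (1 / (1 + |(n : ℝ)|) ^ 2 + 1 / (1 + |((n + 1 : ℤ) : ℝ)|) ^ 2) +
      C₂ * w 1 * ∫ t in x n..x (n + 1), ‖f t‖ ^ 2 := by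
    intro n
    have n1 : 0 ≤ ∫ t in x n..x (n + 1), ‖f t‖ ^ 2 :=
      intervalIntegral.integral_nonneg (hnn n) fun t _ => sq_nonneg _
    have n2 : 0 ≤ ∫ t in x n..x (n + 1), av w t * ‖deriv f t‖ ^ 2 :=
      intervalIntegral.integral_nonneg (hnn n) fun t _ =>
        mul_nonneg (avk_nonneg kn_ker hwt t) (sq_nonneg _)
    have n3 : 0 ≤ C₁ * B * (1 / (1 + |(n : ℝ)|) ^ 2 + 1 / (1 + |((n + 1 : ℤ) : ℝ)|) ^ 2) := by
      positivity
    have n4 : 0 ≤ C₂ * w 1 * ∫ t in x n..x (n + 1), ‖f t‖ ^ 2 := by positivity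
    have n5 : 0 ≤ θ * (1 / (4 * π ^ 2)) * (∫ t in x n..x (n + 1), av w t * ‖deriv f t‖ ^ 2) := by
      positivity
    by_cases hn : M ≤ x n ∨ x (n + 1) ≤ -M
    · have h1 := hint w hw f (deriv f) (fun t => f.differentiable.differentiableAt.hasDerivAt)
        (SchwartzMap.derivCLM ℂ ℂ f).continuous n hn
      rw [← hδ] at h1
      have h2 := hnode n
      have h3 := hnode (n + 1)
      have h4 := mul_le_mul_of_nonneg_left (add_le_add h2 h3) hC₁
      have h5 : C₁ * (B * (1 / (1 + |(n : ℝ)|) ^ 2) + B * (1 / (1 + |((n + 1 : ℤ) : ℝ)|) ^ 2)) =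
        C₁ * B * (1 / (1 + |(n : ℝ)|) ^ 2 + 1 / (1 + |((n + 1 : ℤ) : ℝ)|) ^ 2) := by ring
      rw [h5] at h4
      linarith
    · have h1 : ∫ t in x n..x (n + 1), PP δ γ w t * ‖f t‖ ^ 2 ≤
          ∫ t in x n..x (n + 1), (C₂ * w 1) * ‖f t‖ ^ 2 := by
        rw [intervalIntegral.integral_of_le (hnn n), intervalIntegral.integral_of_le (hnn n)]
        refine setIntegral_mono_on hi1.integrableOn (hi3.const_mul _).integrableOn
          measurableSet_Ioc fun t ht => ?_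
        refine mul_le_mul_of_nonneg_right ?_ (sq_nonneg _)
        have h2 := hexc n hn t ht
        have h3 := (hga _ hup t).1
        have h4 := (hgb w hw t).2
        rw [hup1] at h3
        have h5 : (1 + |t|) ^ ka ≤ (1 + M') ^ ka := pow_le_pow_left₀ (by positivity) (by linarith) _
        have h6 : (1 + |t|) ^ kb ≤ (1 + M') ^ kb := pow_le_pow_left₀ (by positivity) (by linarith) _
        have h7 : av (up γ w) t ≤ Ca * w 1 * (1 + M') ^ ka :=
          h3.trans (mul_le_mul_of_nonneg_left h5 (by positivity))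
        have h8 : av2 w t ≤ Cb * w 1 * (1 + M') ^ kb :=
          h4.trans (mul_le_mul_of_nonneg_left h6 (by positivity))
        unfold PP
        have h9 := mul_le_mul_of_nonneg_left h7 (by positivity : 0 ≤ 1 + δ)
        have h10 := mul_le_mul_of_nonneg_left h8 (by positivity : 0 ≤ 1 + 1 / δ)
        rw [hC₂]
        calc (1 + δ) * av (up γ w) t + (1 + 1 / δ) * av2 w t ≤
            (1 + δ) * (Ca * w 1 * (1 + M') ^ ka) + (1 + 1 / δ) * (Cb * w 1 * (1 + M') ^ kb) :=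
              add_le_add h9 h10
          _ = _ := by ring
      rw [intervalIntegral.integral_const_mul] at h1
      linarith
  have s4 := ((s2.mul_left (θ * (1 / (4 * π ^ 2)))).add (hsum.mul_left (C₁ * B))).add
    (s3.mul_left (C₂ * w 1))
  have h1 := hasSum_le hterm s1 s4
  rw [← hδ]
  refine h1.trans ?_
  have h2 : 0 ≤ ∫ t, ‖f t‖ ^ 2 := integral_nonneg fun t => sq_nonneg _
  have h3 : C₁ * B * S ≤ max (C₁ * S) C₂ * B := by
    have h4 := mul_le_mul_of_nonneg_right (le_max_left (C₁ * S) C₂) hB0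
    calc C₁ * B * S = C₁ * S * B := by ring
      _ ≤ _ := h4
  have h5 : C₂ * w 1 * (∫ t, ‖f t‖ ^ 2) ≤ max (C₁ * S) C₂ * w 1 * ∫ t, ‖f t‖ ^ 2 :=
    mul_le_mul_of_nonneg_right (mul_le_mul_of_nonneg_right (le_max_right _ _) hw1) h2
  linarith

end Q24.SF
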